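import Pool.Agent.helper22.GS.Spec

/-!
# Project gs: HC (the two primes for three elements and degree three)
-/

set_option autoImplicit false

namespace Pool.Agent.GS

open Module

theorem HC (h7 : HC7_stmt) (h13 : HC13_stmt) : HC_stmt := by
  intro F _ _ r hF hr hr2 hD
  have hd := hD.dvd
  norm_num at hd
  have hmem : r ∈ Nat.primeFactors 728 := Nat.mem_primeFactors.mpr ⟨hr, hd, by norm_num⟩
  have h728 : Nat.primeFactors 728 = {2, 7, 13} := by
    have e : (728 : ℕ) = 2 ^ 3 * (7 * 13) := by norm_num
    rw [e, Nat.primeFactors_mul (by norm_num) (by norm_num),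
      Nat.primeFactors_mul (by norm_num) (by norm_num), Nat.primeFactors_prime_pow (by norm_num)
      Nat.prime_two, Nat.Prime.primeFactors (by norm_num), Nat.Prime.primeFactors (by norm_num)]
    decide
  rw [h728] at hmem
  simp only [Finset.mem_insert, Finset.mem_singleton] at hmem
  rcases hmem with h | h | h
  · exact absurd h hr2
  · subst h
    exact h7 hF
  · subst h
    exact h13 hF

end Pool.Agent.GS
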