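import Pool.Agent.helper22.GS.Spec

/-!
# Project gs: MSEM (semilinear maps)
-/

set_option autoImplicit false

namespace Pool.Agent.GS

open Module

theorem MSEM (hDSA : DSA_stmt) (hDSV : DSV_stmt) (hDSP : DSP_stmt) (hBA : BA_stmt)
    (hMB : MB_stmt) (hM2 : M2_stmt) (hRP : RP_stmt) : MSEM_stmt := by
  intro F V _ _ _ _ _ B hB n hn hfin y ψ ν hy hψ l κ hl hκ hyl r hr hr2
  have hT : Trip B y := (hDSA B hB n hn hfin y ψ ν hy hψ l κ hl hκ hyl).1
  obtain ⟨v, hv0, hv1⟩ := hDSV B hB y ψ ν hy hψ hT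
  have hBlk : Blk B y ν := hBA B hB y ψ ν hy v hv0 hv1
  have hPln : Pln B y := hDSP B hB y ψ ν hy hψ hT
  refine ⟨fun hq => hRP B hB (by omega) y ν hy.ne hBlk r hr hq, fun m hm hD => ?_⟩
  rcases Nat.lt_or_ge m 2 with h | h
  · have h1 : m = 1 := by
      have := hD.pos
      omega
    subst h1
    exact hM2 B hB y ψ ν hy hPln r hr hr2 hD
  · exact hMB B hB y ν hy.ne hBlk r m hr hr2 hD h (by omega)

end Pool.Agent.GS
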